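import Pool.Agent.P.MP_2b0d5b_co.Five

set_option autoImplicit false

namespace Pool.Agent.Results.MP_2b0d5b_co.EveryOrder

/-- For every n ≥ 46 there is a 5-critical graph on exactly n vertices, with no clique on four
vertices, in which every vertex has degree greater than n/10 - 3. -/
theorem result (n : ℕ) (hn : 46 ≤ n) :
    ∃ G : SimpleGraph (Fin n),
      G.chromaticNumber = 5 ∧
      (∀ e ∈ G.edgeSet, (G.deleteEdges {e}).chromaticNumber < 5) ∧
      G.CliqueFree 4 ∧
      ∀ v : Fin n, (n : ℝ) / 10 - 3 < ((G.neighborSet v).ncard : ℝ) := by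
  obtain ⟨G, h1, h2, h3, h4⟩ := Pool.Agent.P.MP_2b0d5b_co.Five.main n hn
  refine ⟨G, h1, h2, h3, fun v => ?_⟩
  have h : (n : ℝ) < 10 * ((G.neighborSet v).ncard : ℝ) + 30 := by exact_mod_cast h4 v
  linarith

end Pool.Agent.Results.MP_2b0d5b_co.EveryOrder
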